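import Mathlib

/-!
# `F_4(C ⊕ D)` is a `k_R`-space

Here `C` is a compact subset of the real line (for instance a convergent sequence with its limit) and
`D` is an arbitrary discrete space.
-/

set_option autoImplicit false

open Topology Filter Set
open scoped Pointwise

namespace Pool.Agent.Results.MP_c880a5_gt.FFour

universe u

/-- `F`, with the map `i : X → F`, is the free topological group (in the sense of Markov) on the
space `X`: it is a Hausdorff topological group which contains `X` as a subspace generating it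
algebraically, and every continuous map from `X` to a (Hausdorff) topological group extends to a
continuous homomorphism on `F`. -/
structure IsFreeTopologicalGroup (X : Type u) [TopologicalSpace X] (F : Type u) [Group F]
    [TopologicalSpace F] (i : X → F) : Prop where
  isTopologicalGroup : IsTopologicalGroup F
  t2 : T2Space F
  isEmbedding : IsEmbedding i
  closure_range : Subgroup.closure (range i) = ⊤
  extend : ∀ (G : Type u) [Group G] [TopologicalSpace G] [IsTopologicalGroup G] [T2Space G]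
    (f : X → G), Continuous f → ∃ φ : F →* G, Continuous φ ∧ ∀ x, φ (i x) = f x

/-- `F_n(X)`: the set of the elements of `F` represented by words of length at most `n` in the
letters from `X ∪ X⁻¹` (equivalently, whose reduced length is at most `n`). -/
def Fn {X F : Type u} [Group F] (i : X → F) (n : ℕ) : Set F :=
  {x | ∃ L : List (X × Bool), L.length ≤ n ∧
    x = (L.map fun p => if p.2 then i p.1 else (i p.1)⁻¹).prod}

/-- `Z` is a `k_R`-space: `Z` is Tychonoff, and every `f : Z → ℝ` whose restriction to every compact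
subset of `Z` is continuous is continuous. -/
def KRSpace (Z : Type u) [TopologicalSpace Z] : Prop :=
  T35Space Z ∧ ∀ f : Z → ℝ, (∀ K : Set Z, IsCompact K → ContinuousOn f K) → Continuous f

/-! ### Combinatorics -/

section Comb

variable {C : Type} {D F : Type u} [Group F]

/-- The value of a padded letter. -/
def v (i : C ⊕ D → F) : Option ((C ⊕ D) × Bool) → F
  | none => 1
  | some (x, true) => i x
  | some (x, false) => (i x)⁻¹

/-- A padded letter is inside if its `D`-letter is in `D₀`. -/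
def Inside (D₀ : Set D) : Option ((C ⊕ D) × Bool) → Prop
  | none => True
  | some (Sum.inl _, _) => True
  | some (Sum.inr d, _) => d ∈ D₀

theorem not_inside {D₀ : Set D} {l : Option ((C ⊕ D) × Bool)} (h : ¬ Inside D₀ l) :
    ∃ d b, d ∉ D₀ ∧ l = some (Sum.inr d, b) := by
  match l, h with
  | none, h => exact absurd trivial h
  | some (Sum.inl _, _), h => exact absurd trivial h
  | some (Sum.inr d, b), h => exact ⟨d, b, h, rfl⟩

/-- The set of the products of four inside letters. -/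
def KK (i : C ⊕ D → F) (D₀ : Set D) : Set F :=
  {x | ∃ l₁ l₂ l₃ l₄, Inside D₀ l₁ ∧ Inside D₀ l₂ ∧ Inside D₀ l₃ ∧ Inside D₀ l₄ ∧
    x = v i l₁ * v i l₂ * v i l₃ * v i l₄}

/-- The subgroup generated by the inside letters. -/
def SF (i : C ⊕ D → F) (D₀ : Set D) : Subgroup F :=
  Subgroup.closure {y | ∃ l, Inside D₀ l ∧ v i l = y}

theorem v_mem_SF {i : C ⊕ D → F} {D₀ : Set D} {l : Option ((C ⊕ D) × Bool)} (h : Inside D₀ l) :
    v i l ∈ SF i D₀ := Subgroup.subset_closure ⟨l, h, rfl⟩

theorem KK_subset_SF {i : C ⊕ D → F} {D₀ : Set D} {x : F} (h : x ∈ KK i D₀) : x ∈ SF i D₀ := by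
  obtain ⟨l₁, l₂, l₃, l₄, h₁, h₂, h₃, h₄, rfl⟩ := h
  exact mul_mem (mul_mem (mul_mem (v_mem_SF h₁) (v_mem_SF h₂)) (v_mem_SF h₃)) (v_mem_SF h₄)

variable (i : C ⊕ D → F) (r : F →* FreeGroup (Option D))

theorem eqOn_SF {G : Type*} [Group G] {i : C ⊕ D → F} {D₀ : Set D} (φ ψ : F →* G)
    (h1 : ∀ a, φ (i (Sum.inl a)) = ψ (i (Sum.inl a)))
    (h2 : ∀ d ∈ D₀, φ (i (Sum.inr d)) = ψ (i (Sum.inr d))) {x : F} (hx : x ∈ SF i D₀) :
    φ x = ψ x := by
  refine MonoidHom.eqOn_closure (f := φ) (g := ψ) ?_ hx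
  rintro y ⟨l, hl, rfl⟩
  match l, hl with
  | none, _ => simp [v]
  | some (Sum.inl a, true), _ => exact h1 a
  | some (Sum.inl a, false), _ => simp [v, h1 a]
  | some (Sum.inr d, true), h => exact h2 d h
  | some (Sum.inr d, false), h => simp [v, h2 d h]

/-- The homomorphism which kills the outside letters. -/
noncomputable def kap (D₀ : Set D) : FreeGroup (Option D) →* FreeGroup (Option D) := by
  classical
  exact FreeGroup.lift fun o => match o with
    | none => FreeGroup.of none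
    | some d => if d ∈ D₀ then FreeGroup.of (some d) else 1

/-- The sign of the number of outside letters. -/
noncomputable def par (D₀ : Set D) : FreeGroup (Option D) →* ℤˣ := by
  classical
  exact FreeGroup.lift fun o => match o with
    | none => 1
    | some d => if d ∈ D₀ then 1 else -1

/-- The exponent sum of the letter `d`. -/
noncomputable def cnt (d : D) : FreeGroup (Option D) →* Multiplicative ℤ := by
  classical
  exact FreeGroup.lift fun o => if o = some d then Multiplicative.ofAdd 1 else 1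

variable {i r}
variable (hr1 : ∀ a, r (i (Sum.inl a)) = FreeGroup.of none)
  (hr2 : ∀ d, r (i (Sum.inr d)) = FreeGroup.of (some d))

include hr1 hr2

theorem par_v {D₀ : Set D} {l : Option ((C ⊕ D) × Bool)} (h : Inside D₀ l) :
    par D₀ (r (v i l)) = 1 := by
  match l, h with
  | none, _ => simp [v]
  | some (Sum.inl a, true), _ => simp [v, hr1, par]
  | some (Sum.inl a, false), _ => simp [v, hr1, par]
  | some (Sum.inr d, true), h => simp [v, hr2, par, show d ∈ D₀ from h]
  | some (Sum.inr d, false), h => simp [v, hr2, par, show d ∈ D₀ from h]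

omit hr1 in
theorem par_v' {D₀ : Set D} {d : D} (h : d ∉ D₀) (b : Bool) :
    par D₀ (r (v i (some (Sum.inr d, b)))) = -1 := by
  cases b <;> simp [v, hr2, par, h]

theorem par_SF {D₀ : Set D} {w : F} (hw : w ∈ SF i D₀) : par D₀ (r w) = 1 := by
  refine eqOn_SF (i := i) ((par D₀).comp r) 1 (fun a => ?_) (fun d hd => ?_) hw
  · simp [hr1, par]
  · simp [hr2, par, hd]

theorem kap_SF {D₀ : Set D} {w : F} (hw : w ∈ SF i D₀) : kap D₀ (r w) = r w := by
  refine eqOn_SF (i := i) ((kap D₀).comp r) r (fun a => ?_) (fun d hd => ?_) hw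
  · simp [hr1, kap]
  · simp [hr2, kap, hd]

/-- Two outside letters. -/
theorem two_out {D₀ : Set D} {d d' : D} (hd : d ∉ D₀) (hd' : d' ∉ D₀) (b b' : Bool) {A B A' w : F}
    (hA : A ∈ SF i D₀) (hB : B ∈ SF i D₀) (hA' : A' ∈ SF i D₀) (hw : w ∈ SF i D₀)
    (hx : r (A * v i (some (Sum.inr d, b)) * B * v i (some (Sum.inr d', b')) * A') = r w) :
    d' = d ∧ b' = !b ∧ r (v i (some (Sum.inr d, b))) * r B * r (v i (some (Sum.inr d', b'))) =
      r B := by
  classical
  have k1 : kap D₀ (r (v i (some (Sum.inr d, b)))) = 1 := by cases b <;> simp [v, hr2, kap, hd]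
  have k2 : kap D₀ (r (v i (some (Sum.inr d', b')))) = 1 := by cases b' <;> simp [v, hr2, kap, hd']
  have h1 := congrArg (kap D₀) hx
  rw [kap_SF hr1 hr2 hw, ← hx] at h1
  simp only [map_mul, k1, k2, kap_SF hr1 hr2 hA, kap_SF hr1 hr2 hB, kap_SF hr1 hr2 hA',
    mul_one] at h1
  have h2 : r (v i (some (Sum.inr d, b))) * r B * r (v i (some (Sum.inr d', b'))) = r B := by
    have h3 := mul_right_cancel h1
    rw [mul_assoc, mul_assoc] at h3
    have h4 := mul_left_cancel h3
    rw [mul_assoc]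
    exact h4.symm
  have h3 := congrArg (cnt d) h2
  simp only [map_mul] at h3
  rw [mul_right_comm, mul_eq_right] at h3
  by_cases hdd : d' = d
  · subst hdd
    refine ⟨rfl, ?_, h2⟩
    cases b <;> cases b' <;> simp [v, hr2, cnt] at h3 ⊢ <;>
      first
        | done
        | (exfalso
           have h5 := congrArg Multiplicative.toAdd h3
           simp at h5)
  · exfalso
    cases b <;> cases b' <;> simp [v, hr2, cnt, hdd] at h3

/-- The group in which we detect that elements do not commute. -/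
abbrev S3 := Equiv.Perm (Fin 3)

/-- One inside letter between two outside letters. -/
theorem one_between {D₀ : Set D} {d : D} (hd : d ∉ D₀) (b : Bool) {l : Option ((C ⊕ D) × Bool)}
    (hl : Inside D₀ l)
    (h : r (v i (some (Sum.inr d, b))) * r (v i l) * r (v i (some (Sum.inr d, !b))) = r (v i l)) :
    v i l = 1 := by
  classical
  match l, hl with
  | none, _ => rfl
  | some (Sum.inl a, c), _ =>
    exfalso
    have h1 := congrArg (FreeGroup.lift (β := S3) fun o => match o with
      | none => Equiv.swap 0 1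
      | some e => if e = d then Equiv.swap 0 2 else 1) h
    cases b <;> cases c <;> simp [v, hr1, hr2] at h1 <;> revert h1 <;> decide
  | some (Sum.inr d₀, c), h0 =>
    exfalso
    have hne : d₀ ≠ d := fun e => hd (e ▸ h0)
    have h1 := congrArg (FreeGroup.lift (β := S3) fun o => match o with
      | none => 1
      | some e => if e = d then Equiv.swap 0 2 else if e = d₀ then Equiv.swap 0 1 else 1) h
    cases b <;> cases c <;> simp [v, hr2, hne] at h1 <;> revert h1 <;> decide

/-- Two inside letters between two outside letters. -/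
theorem two_between {D₀ : Set D} {d : D} (hd : d ∉ D₀) (b : Bool)
    {l l' : Option ((C ⊕ D) × Bool)} (hl : Inside D₀ l) (hl' : Inside D₀ l')
    (h : r (v i (some (Sum.inr d, b))) * r (v i l * v i l') * r (v i (some (Sum.inr d, !b))) =
      r (v i l * v i l')) :
    v i l * v i l' = 1 ∨ ∃ a a' c, l = some (Sum.inl a, c) ∧ l' = some (Sum.inl a', !c) := by
  classical
  match l, hl, l', hl' with
  | none, _, l', hl' =>
    left
    have h1 : v i (none : Option ((C ⊕ D) × Bool)) = 1 := rfl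
    rw [h1, one_mul] at h ⊢
    exact one_between hr1 hr2 hd b hl' h
  | l, hl, none, _ =>
    left
    have h1 : v i (none : Option ((C ⊕ D) × Bool)) = 1 := rfl
    rw [h1, mul_one] at h ⊢
    exact one_between hr1 hr2 hd b hl h
  | some (Sum.inl a, c), _, some (Sum.inl a', c'), _ =>
    by_cases hc : c' = !c
    · right
      exact ⟨a, a', c, rfl, by rw [hc]⟩
    · exfalso
      have hc' : c' = c := by revert hc; cases c <;> cases c' <;> simp
      subst hc'
      have h1 := congrArg (FreeGroup.lift (β := S3) fun o => match o with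
        | none => Equiv.swap 0 1 * Equiv.swap 1 2
        | some e => if e = d then Equiv.swap 0 2 else 1) h
      cases b <;> cases c' <;> simp [v, hr1, hr2] at h1 <;> revert h1 <;> decide
  | some (Sum.inl a, c), _, some (Sum.inr d₁, c'), h₁ =>
    exfalso
    have hne : d₁ ≠ d := fun e => hd (e ▸ h₁)
    have h1 := congrArg (FreeGroup.lift (β := S3) fun o => match o with
      | none => Equiv.swap 0 1
      | some e => if e = d then Equiv.swap 0 2 else 1) h
    cases b <;> cases c <;> cases c' <;> simp [v, hr1, hr2, hne] at h1 <;> revert h1 <;> decide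
  | some (Sum.inr d₀, c), h₀, some (Sum.inl a', c'), _ =>
    exfalso
    have hne : d₀ ≠ d := fun e => hd (e ▸ h₀)
    have h1 := congrArg (FreeGroup.lift (β := S3) fun o => match o with
      | none => Equiv.swap 0 1
      | some e => if e = d then Equiv.swap 0 2 else 1) h
    cases b <;> cases c <;> cases c' <;> simp [v, hr1, hr2, hne] at h1 <;> revert h1 <;> decide
  | some (Sum.inr d₀, c), h₀, some (Sum.inr d₁, c'), h₁ =>
    have hne₀ : d₀ ≠ d := fun e => hd (e ▸ h₀)
    have hne₁ : d₁ ≠ d := fun e => hd (e ▸ h₁)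
    by_cases h01 : d₁ = d₀
    · subst h01
      by_cases hc : c' = !c
      · left
        subst hc
        cases c <;> simp [v]
      · exfalso
        have hc' : c' = c := by revert hc; cases c <;> cases c' <;> simp
        subst hc'
        have h1 := congrArg (FreeGroup.lift (β := S3) fun o => match o with
          | none => 1
          | some e => if e = d then Equiv.swap 0 2 else if e = d₁ then
            Equiv.swap 0 1 * Equiv.swap 1 2 else 1) h
        cases b <;> cases c' <;> simp [v, hr2, hne₀] at h1 <;> revert h1 <;> decide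
    · exfalso
      have h1 := congrArg (FreeGroup.lift (β := S3) fun o => match o with
        | none => 1
        | some e => if e = d then Equiv.swap 0 2 else if e = d₀ then Equiv.swap 0 1 else 1) h
      cases b <;> cases c <;> cases c' <;> simp [v, hr2, hne₀, hne₁, h01] at h1 <;>
        revert h1 <;> decide

/-- The main combinatorial lemma: if the image of a product of four letters in `FreeGroup (Option D)`
is the image of an element of the subgroup generated by the inside letters, then it is the product of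
four inside letters, or it is of the form `d^{±1} a^{±1} a'^{∓1} d^{∓1}` with `a, a' ∈ C` and an
outside letter `d`. -/
theorem comb {D₀ : Set D} {w : F} (hw : w ∈ SF i D₀) (l₁ l₂ l₃ l₄ : Option ((C ⊕ D) × Bool))
    (hx : r (v i l₁ * v i l₂ * v i l₃ * v i l₄) = r w) :
    v i l₁ * v i l₂ * v i l₃ * v i l₄ ∈ KK i D₀ ∨
    ∃ d ∉ D₀, ∃ b a a' c, v i l₁ * v i l₂ * v i l₃ * v i l₄ =
      v i (some (Sum.inr d, b)) * v i (some (Sum.inl a, c)) * v i (some (Sum.inl a', !c)) *
        v i (some (Sum.inr d, !b)) := by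
  classical
  have hone : v i (none : Option ((C ⊕ D) × Bool)) = 1 := rfl
  have hin : Inside D₀ (none : Option ((C ⊕ D) × Bool)) := trivial
  have hpar : par D₀ (r (v i l₁ * v i l₂ * v i l₃ * v i l₄)) = 1 := by
    rw [hx]
    exact par_SF hr1 hr2 hw
  simp only [map_mul] at hpar
  have hcan : ∀ (d : D) (b : Bool), v i (some (Sum.inr d, b)) * v i (some (Sum.inr d, !b)) = 1 := by
    intro d b
    cases b <;> simp [v]
  by_cases h₁ : Inside D₀ l₁ <;> by_cases h₂ : Inside D₀ l₂ <;> by_cases h₃ : Inside D₀ l₃ <;>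
    by_cases h₄ : Inside D₀ l₄
  · exact Or.inl ⟨l₁, l₂, l₃, l₄, h₁, h₂, h₃, h₄, rfl⟩
  · exfalso
    obtain ⟨d, b, hd, rfl⟩ := not_inside h₄
    rw [par_v hr1 hr2 h₁, par_v hr1 hr2 h₂, par_v hr1 hr2 h₃, par_v' hr2 hd] at hpar
    revert hpar; decide
  · exfalso
    obtain ⟨d, b, hd, rfl⟩ := not_inside h₃
    rw [par_v hr1 hr2 h₁, par_v hr1 hr2 h₂, par_v' hr2 hd, par_v hr1 hr2 h₄] at hpar
    revert hpar; decide
  · -- positions 3, 4
    left
    obtain ⟨d, b, hd, rfl⟩ := not_inside h₃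
    obtain ⟨d', b', hd', rfl⟩ := not_inside h₄
    obtain ⟨rfl, rfl, -⟩ := two_out hr1 hr2 hd hd' b b' (A := v i l₁ * v i l₂) (B := 1) (A' := 1)
      (mul_mem (v_mem_SF h₁) (v_mem_SF h₂)) (one_mem _) (one_mem _) hw (by simpa using hx)
    refine ⟨l₁, l₂, none, none, h₁, h₂, hin, hin, ?_⟩
    rw [mul_assoc (v i l₁ * v i l₂), hcan, hone]
    simp
  · exfalso
    obtain ⟨d, b, hd, rfl⟩ := not_inside h₂
    rw [par_v hr1 hr2 h₁, par_v' hr2 hd, par_v hr1 hr2 h₃, par_v hr1 hr2 h₄] at hpar
    revert hpar; decide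
  · -- positions 2, 4
    left
    obtain ⟨d, b, hd, rfl⟩ := not_inside h₂
    obtain ⟨d', b', hd', rfl⟩ := not_inside h₄
    obtain ⟨rfl, rfl, he⟩ := two_out hr1 hr2 hd hd' b b' (A := v i l₁) (B := v i l₃) (A' := 1)
      (v_mem_SF h₁) (v_mem_SF h₃) (one_mem _) hw (by simpa using hx)
    have h5 := one_between hr1 hr2 hd b h₃ he
    refine ⟨l₁, none, none, none, h₁, hin, hin, hin, ?_⟩
    rw [h5, mul_one, mul_assoc (v i l₁), hcan, hone]
    simp
  · -- positions 2, 3
    left
    obtain ⟨d, b, hd, rfl⟩ := not_inside h₂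
    obtain ⟨d', b', hd', rfl⟩ := not_inside h₃
    obtain ⟨rfl, rfl, -⟩ := two_out hr1 hr2 hd hd' b b' (A := v i l₁) (B := 1) (A' := v i l₄)
      (v_mem_SF h₁) (one_mem _) (v_mem_SF h₄) hw (by simpa using hx)
    refine ⟨l₁, l₄, none, none, h₁, h₄, hin, hin, ?_⟩
    rw [mul_assoc (v i l₁), hcan, hone]
    simp
  · exfalso
    obtain ⟨d, b, hd, rfl⟩ := not_inside h₂
    obtain ⟨d', b', hd', rfl⟩ := not_inside h₃
    obtain ⟨d'', b'', hd'', rfl⟩ := not_inside h₄
    rw [par_v hr1 hr2 h₁, par_v' hr2 hd, par_v' hr2 hd', par_v' hr2 hd''] at hpar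
    revert hpar; decide
  · exfalso
    obtain ⟨d, b, hd, rfl⟩ := not_inside h₁
    rw [par_v' hr2 hd, par_v hr1 hr2 h₂, par_v hr1 hr2 h₃, par_v hr1 hr2 h₄] at hpar
    revert hpar; decide
  · -- positions 1, 4
    obtain ⟨d, b, hd, rfl⟩ := not_inside h₁
    obtain ⟨d', b', hd', rfl⟩ := not_inside h₄
    obtain ⟨rfl, rfl, he⟩ := two_out hr1 hr2 hd hd' b b' (A := 1) (B := v i l₂ * v i l₃) (A' := 1)
      (one_mem _) (mul_mem (v_mem_SF h₂) (v_mem_SF h₃)) (one_mem _) hw
      (by simpa [mul_assoc] using hx)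
    rcases two_between hr1 hr2 hd b h₂ h₃ he with h5 | ⟨a, a', c, rfl, rfl⟩
    · left
      refine ⟨none, none, none, none, hin, hin, hin, hin, ?_⟩
      rw [mul_assoc (v i (some (Sum.inr d', b))), h5, mul_one, hcan, hone]
      simp
    · right
      exact ⟨d', hd, b, a, a', c, rfl⟩
  · -- positions 1, 3
    left
    obtain ⟨d, b, hd, rfl⟩ := not_inside h₁
    obtain ⟨d', b', hd', rfl⟩ := not_inside h₃
    obtain ⟨rfl, rfl, he⟩ := two_out hr1 hr2 hd hd' b b' (A := 1) (B := v i l₂) (A' := v i l₄)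
      (one_mem _) (v_mem_SF h₂) (v_mem_SF h₄) hw (by simpa using hx)
    have h5 := one_between hr1 hr2 hd b h₂ he
    refine ⟨l₄, none, none, none, h₄, hin, hin, hin, ?_⟩
    rw [h5, mul_one, hcan, hone]
    simp
  · exfalso
    obtain ⟨d, b, hd, rfl⟩ := not_inside h₁
    obtain ⟨d', b', hd', rfl⟩ := not_inside h₃
    obtain ⟨d'', b'', hd'', rfl⟩ := not_inside h₄
    rw [par_v' hr2 hd, par_v hr1 hr2 h₂, par_v' hr2 hd', par_v' hr2 hd''] at hpar
    revert hpar; decide
  · -- positions 1, 2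
    left
    obtain ⟨d, b, hd, rfl⟩ := not_inside h₁
    obtain ⟨d', b', hd', rfl⟩ := not_inside h₂
    obtain ⟨rfl, rfl, -⟩ := two_out hr1 hr2 hd hd' b b' (A := 1) (B := 1) (A' := v i l₃ * v i l₄)
      (one_mem _) (one_mem _) (mul_mem (v_mem_SF h₃) (v_mem_SF h₄)) hw
      (by simpa [mul_assoc] using hx)
    refine ⟨l₃, l₄, none, none, h₃, h₄, hin, hin, ?_⟩
    rw [hcan, hone]
    simp
  · exfalso
    obtain ⟨d, b, hd, rfl⟩ := not_inside h₁
    obtain ⟨d', b', hd', rfl⟩ := not_inside h₂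
    obtain ⟨d'', b'', hd'', rfl⟩ := not_inside h₄
    rw [par_v' hr2 hd, par_v' hr2 hd', par_v hr1 hr2 h₃, par_v' hr2 hd''] at hpar
    revert hpar; decide
  · exfalso
    obtain ⟨d, b, hd, rfl⟩ := not_inside h₁
    obtain ⟨d', b', hd', rfl⟩ := not_inside h₂
    obtain ⟨d'', b'', hd'', rfl⟩ := not_inside h₃
    rw [par_v' hr2 hd, par_v' hr2 hd', par_v' hr2 hd'', par_v hr1 hr2 h₄] at hpar
    revert hpar; decide
  · -- all letters are outside
    left
    obtain ⟨d₁, b₁, hd₁, rfl⟩ := not_inside h₁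
    obtain ⟨d₂, b₂, hd₂, rfl⟩ := not_inside h₂
    obtain ⟨d₃, b₃, hd₃, rfl⟩ := not_inside h₃
    obtain ⟨d₄, b₄, hd₄, rfl⟩ := not_inside h₄
    have k1 : ∀ (d : D) (b : Bool), d ∉ D₀ → kap D₀ (r (v i (some (Sum.inr d, b)))) = 1 := by
      intro d b hd
      cases b <;> simp [v, hr2, kap, hd]
    have h5 := congrArg (kap D₀) hx
    rw [kap_SF hr1 hr2 hw, ← hx] at h5
    simp only [map_mul, k1 _ _ hd₁, k1 _ _ hd₂, k1 _ _ hd₃, k1 _ _ hd₄, mul_one] at h5
    have k2 : ∀ (d : D) (b : Bool), (FreeGroup.lift fun o : Option D => match o with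
        | none => (1 : F)
        | some e => i (Sum.inr e)) (r (v i (some (Sum.inr d, b)))) = v i (some (Sum.inr d, b)) := by
      intro d b
      cases b <;> simp [v, hr2]
    have h6 := congrArg (FreeGroup.lift fun o : Option D => match o with
        | none => (1 : F)
        | some e => i (Sum.inr e)) h5
    simp only [map_mul, map_one, k2] at h6
    rw [← h6]
    exact ⟨none, none, none, none, hin, hin, hin, hin, by simp [hone]⟩

end Comb

/-! ### The matrix group -/

/-- The group of invertible `2 × 2` matrices. -/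
abbrev G2 : Type := (Matrix (Fin 2) (Fin 2) ℝ)ˣ

/-- The unipotent matrices. -/
def U (s : ℝ) : G2 where
  val := !![1, s; 0, 1]
  inv := !![1, -s; 0, 1]
  val_inv := by ext i j; fin_cases i <;> fin_cases j <;> simp [Matrix.mul_apply, Fin.sum_univ_two]
  inv_val := by ext i j; fin_cases i <;> fin_cases j <;> simp [Matrix.mul_apply, Fin.sum_univ_two]

/-- The diagonal matrices `diag(c, 1)`. -/
noncomputable def Dg (c : ℝ) (hc : c ≠ 0) : G2 where
  val := !![c, 0; 0, 1]
  inv := !![c⁻¹, 0; 0, 1]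
  val_inv := by
    ext i j; fin_cases i <;> fin_cases j <;> simp [Matrix.mul_apply, Fin.sum_univ_two, hc]
  inv_val := by
    ext i j; fin_cases i <;> fin_cases j <;> simp [Matrix.mul_apply, Fin.sum_univ_two, hc]

theorem U_mul (s t : ℝ) : U s * U t = U (s + t) := by
  ext i j; fin_cases i <;> fin_cases j <;>
    simp [U, Matrix.mul_apply, Fin.sum_univ_two, add_comm]

theorem U_inv (s : ℝ) : (U s)⁻¹ = U (-s) := by
  rw [inv_eq_iff_mul_eq_one, U_mul]
  ext i j; fin_cases i <;> fin_cases j <;> simp [U]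

theorem Dg_conj (c : ℝ) (hc : c ≠ 0) (s : ℝ) : Dg c hc * U s * (Dg c hc)⁻¹ = U (c * s) := by
  rw [mul_inv_eq_iff_eq_mul]
  ext i j; fin_cases i <;> fin_cases j <;>
    simp [U, Dg, Matrix.mul_apply, Fin.sum_univ_two]

theorem Dg_conj' (c : ℝ) (hc : c ≠ 0) (s : ℝ) : (Dg c hc)⁻¹ * U s * Dg c hc = U (c⁻¹ * s) := by
  rw [mul_assoc, inv_mul_eq_iff_eq_mul]
  ext i j; fin_cases i <;> fin_cases j <;>
    simp [U, Dg, Matrix.mul_apply, Fin.sum_univ_two, hc]

theorem U_apply (s : ℝ) : ((U s : G2) : Matrix (Fin 2) (Fin 2) ℝ) 0 1 = s := by simp [U]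

theorem continuous_U : Continuous U := by
  rw [Units.continuous_iff]
  constructor
  · refine continuous_matrix fun i j => ?_
    fin_cases i <;> fin_cases j <;> simp [U] <;> fun_prop
  · refine continuous_matrix fun i j => ?_
    simp only [U_inv]
    fin_cases i <;> fin_cases j <;> simp [U] <;> fun_prop

/-! ### The main theorem -/

section Main

set_option linter.unusedSectionVars false

variable {C : Set ℝ} {D F : Type u} [TopologicalSpace D] [DiscreteTopology D] [Group F]
  [TopologicalSpace F] {i : C ⊕ D → F}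

theorem mem_Fn_iff {x : F} : x ∈ Fn i 4 ↔
    ∃ l₁ l₂ l₃ l₄, x = v i l₁ * v i l₂ * v i l₃ * v i l₄ := by
  have hv : ∀ p : (C ⊕ D) × Bool, (if p.2 then i p.1 else (i p.1)⁻¹) = v i (some p) := by
    rintro ⟨x, b⟩
    cases b <;> rfl
  constructor
  · rintro ⟨L, hL, rfl⟩
    simp only [hv]
    match L, hL with
    | [], _ => exact ⟨none, none, none, none, by simp [v]⟩
    | [a], _ => exact ⟨some a, none, none, none, by simp [v]⟩
    | [a, b], _ => exact ⟨some a, some b, none, none, by simp [v]⟩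
    | [a, b, c], _ => exact ⟨some a, some b, some c, none, by simp [v, mul_assoc]⟩
    | [a, b, c, d], _ => exact ⟨some a, some b, some c, some d, by simp [mul_assoc]⟩
    | (a :: b :: c :: d :: e :: L), h =>
      simp at h
      omega
  · rintro ⟨l₁, l₂, l₃, l₄, rfl⟩
    refine ⟨[l₁, l₂, l₃, l₄].filterMap id, ?_, ?_⟩
    · exact (List.length_filterMap_le _ _)
    · simp only [hv]
      cases l₁ <;> cases l₂ <;> cases l₃ <;> cases l₄ <;> simp [v, mul_assoc]

theorem KK_subset_Fn {D₀ : Set D} : KK i D₀ ⊆ Fn i 4 := by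
  rintro x ⟨l₁, l₂, l₃, l₄, -, -, -, -, rfl⟩
  exact mem_Fn_iff.2 ⟨l₁, l₂, l₃, l₄, rfl⟩

theorem KK_compact [IsTopologicalGroup F] (hi : Continuous i) (hC : IsCompact C) {D₀ : Set D}
    (hD : D₀.Finite) : IsCompact (KK i D₀) := by
  have : CompactSpace C := isCompact_iff_compactSpace.1 hC
  have hc : Continuous fun a : C => i (Sum.inl a) := hi.comp continuous_inl
  have hP : IsCompact {y : F | ∃ l, Inside D₀ l ∧ v i l = y} := by
    have h1 : {y : F | ∃ l, Inside D₀ l ∧ v i l = y} = {1} ∪ range (fun a : C => i (Sum.inl a)) ∪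
        range (fun a : C => (i (Sum.inl a))⁻¹) ∪ (fun d => i (Sum.inr d)) '' D₀ ∪
        (fun d => (i (Sum.inr d))⁻¹) '' D₀ := by
      ext y
      constructor
      · rintro ⟨l, hl, rfl⟩
        match l, hl with
        | none, _ => exact Or.inl (Or.inl (Or.inl (Or.inl rfl)))
        | some (Sum.inl a, true), _ => exact Or.inl (Or.inl (Or.inl (Or.inr ⟨a, rfl⟩)))
        | some (Sum.inl a, false), _ => exact Or.inl (Or.inl (Or.inr ⟨a, rfl⟩))
        | some (Sum.inr d, true), h => exact Or.inl (Or.inr ⟨d, h, rfl⟩)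
        | some (Sum.inr d, false), h => exact Or.inr ⟨d, h, rfl⟩
      · rintro ((((rfl | ⟨a, rfl⟩) | ⟨a, rfl⟩) | ⟨d, hd, rfl⟩) | ⟨d, hd, rfl⟩)
        · exact ⟨none, trivial, rfl⟩
        · exact ⟨some (Sum.inl a, true), trivial, rfl⟩
        · exact ⟨some (Sum.inl a, false), trivial, rfl⟩
        · exact ⟨some (Sum.inr d, true), hd, rfl⟩
        · exact ⟨some (Sum.inr d, false), hd, rfl⟩
    rw [h1]
    exact (((isCompact_singleton.union (isCompact_range hc)).union (isCompact_range hc.inv)).union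
      (hD.image _).isCompact).union (hD.image _).isCompact
  have h2 : KK i D₀ = {y : F | ∃ l, Inside D₀ l ∧ v i l = y} * {y : F | ∃ l, Inside D₀ l ∧ v i l = y}
      * {y : F | ∃ l, Inside D₀ l ∧ v i l = y} * {y : F | ∃ l, Inside D₀ l ∧ v i l = y} := by
    ext x
    constructor
    · rintro ⟨l₁, l₂, l₃, l₄, h₁, h₂, h₃, h₄, rfl⟩
      exact mul_mem_mul (mul_mem_mul (mul_mem_mul ⟨l₁, h₁, rfl⟩ ⟨l₂, h₂, rfl⟩) ⟨l₃, h₃, rfl⟩)
        ⟨l₄, h₄, rfl⟩
    · rintro ⟨_, ⟨_, ⟨_, ⟨l₁, h₁, rfl⟩, _, ⟨l₂, h₂, rfl⟩, rfl⟩, _, ⟨l₃, h₃, rfl⟩, rfl⟩,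
        _, ⟨l₄, h₄, rfl⟩, rfl⟩
      exact ⟨l₁, l₂, l₃, l₄, h₁, h₂, h₃, h₄, rfl⟩
  rw [h2]
  exact ((hP.mul hP).mul hP).mul hP

/-- The element `d^{±1} a^{±1} a'^{∓1} d^{∓1}`. -/
def E (i : C ⊕ D → F) (d : D) (b c : Bool) (p : C × C) : F :=
  v i (some (Sum.inr d, b)) * v i (some (Sum.inl p.1, c)) * v i (some (Sum.inl p.2, !c)) *
    v i (some (Sum.inr d, !b))

theorem E_diag (d : D) (b c : Bool) (a : C) : E i d b c (a, a) = 1 := by
  cases b <;> cases c <;> simp [E, v]

theorem E_mem_Fn (d : D) (b c : Bool) (p : C × C) : E i d b c p ∈ Fn i 4 :=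
  mem_Fn_iff.2 ⟨_, _, _, _, rfl⟩

theorem continuous_E [IsTopologicalGroup F] (hi : Continuous i) (d : D) (b c : Bool) :
    Continuous (E i d b c) := by
  have h1 : Continuous fun p : C × C => i (Sum.inl p.1) := hi.comp (continuous_inl.comp continuous_fst)
  have h2 : Continuous fun p : C × C => i (Sum.inl p.2) := hi.comp (continuous_inl.comp continuous_snd)
  cases b <;> cases c <;> unfold E v <;> fun_prop

theorem ext_hom (hF : IsFreeTopologicalGroup (C ⊕ D) F i) (G : Type) [Group G] [TopologicalSpace G]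
    [IsTopologicalGroup G] [T2Space G] (f : C ⊕ D → G) (hf : Continuous f) :
    ∃ φ : F →* G, Continuous φ ∧ ∀ x, φ (i x) = f x := by
  obtain ⟨φ, hφ, hφ2⟩ := hF.extend (ULift.{u} G) (fun x => ULift.up (f x))
    (continuous_uliftUp.comp hf)
  have hc : Continuous fun x => (φ x).down := continuous_uliftDown.comp hφ
  refine ⟨(MulEquiv.ulift : ULift.{u} G ≃* G).toMonoidHom.comp φ, hc, fun x => ?_⟩
  show (φ (i x)).down = f x
  rw [hφ2]

/-- The representations by `2 × 2` matrices. -/
theorem exists_rho (hF : IsFreeTopologicalGroup (C ⊕ D) F i) (c : D → ℝ) (hc : ∀ d, c d ≠ 0) :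
    ∃ ρ : F →* G2, Continuous ρ ∧ (∀ a : C, ρ (i (Sum.inl a)) = U a) ∧
      ∀ d, ρ (i (Sum.inr d)) = Dg (c d) (hc d) := by
  obtain ⟨φ, hφ, hφ2⟩ := ext_hom hF G2 (Sum.elim (fun a : C => U a) (fun d => Dg (c d) (hc d)))
    (continuous_sum_dom.2 ⟨continuous_U.comp continuous_subtype_val, continuous_of_discreteTopology⟩)
  exact ⟨φ, hφ, fun a => hφ2 _, fun d => hφ2 _⟩

theorem rho_pair {ρ : F →* G2} (h1 : ∀ a : C, ρ (i (Sum.inl a)) = U a) (c : Bool) (a a' : C) :
    ∃ s : ℝ, |s| = |(a : ℝ) - a'| ∧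
      ρ (v i (some (Sum.inl a, c)) * v i (some (Sum.inl a', !c))) = U s := by
  cases c
  · refine ⟨a' - a, abs_sub_comm _ _, ?_⟩
    show ρ ((i (Sum.inl a))⁻¹ * i (Sum.inl a')) = _
    rw [map_mul, map_inv, h1, h1, U_inv, U_mul]
    congr 1
    ring
  · refine ⟨a - a', rfl, ?_⟩
    show ρ (i (Sum.inl a) * (i (Sum.inl a'))⁻¹) = _
    rw [map_mul, map_inv, h1, h1, U_inv, U_mul]
    congr 1

/-- The matrix of an element `d^{±1} a^{±1} a'^{∓1} d^{∓1}`. -/
theorem rho_E {ρ : F →* G2} {cc : D → ℝ} {hc : ∀ d, cc d ≠ 0}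
    (h1 : ∀ a : C, ρ (i (Sum.inl a)) = U a) (h2 : ∀ d, ρ (i (Sum.inr d)) = Dg (cc d) (hc d))
    (d : D) (b c : Bool) (a a' : C) : ∃ s : ℝ, |s| = |(a : ℝ) - a'| ∧
      ρ (v i (some (Sum.inl a, c)) * v i (some (Sum.inl a', !c))) = U s ∧
      ρ (E i d b c (a, a')) = U ((if b then cc d else (cc d)⁻¹) * s) := by
  obtain ⟨s, hs, hs2⟩ := rho_pair h1 c a a'
  refine ⟨s, hs, hs2, ?_⟩
  have e : E i d b c (a, a') = v i (some (Sum.inr d, b)) *
      (v i (some (Sum.inl a, c)) * v i (some (Sum.inl a', !c))) * v i (some (Sum.inr d, !b)) := by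
    simp only [E, mul_assoc]
  rw [e, map_mul, map_mul, hs2]
  cases b
  · show ρ (i (Sum.inr d))⁻¹ * U s * ρ (i (Sum.inr d)) = _
    rw [map_inv, h2, Dg_conj']
    rfl
  · show ρ (i (Sum.inr d)) * U s * ρ (i (Sum.inr d))⁻¹ = _
    rw [map_inv, h2, Dg_conj]
    rfl

/-- A point `w ≠ 1` of `F_4` has a neighbourhood in `F_4` which is contained in a compact set. -/
theorem local_compact [IsTopologicalGroup F] (hF : IsFreeTopologicalGroup (C ⊕ D) F i)
    (hC : IsCompact C)
    {r : F →* FreeGroup (Option D)} (hrc : ∀ w : F, IsOpen {x : F | r x = r w})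
    (hr1 : ∀ a, r (i (Sum.inl a)) = FreeGroup.of none)
    (hr2 : ∀ d, r (i (Sum.inr d)) = FreeGroup.of (some d)) {w : F} (hw : w ∈ Fn i 4)
    (hw1 : w ≠ 1) : ∃ K : Set F, IsCompact K ∧ K ⊆ Fn i 4 ∧ w ∈ K ∧ K ∈ 𝓝[Fn i 4] w := by
  classical
  have := hF.t2
  have hi : Continuous i := hF.isEmbedding.continuous
  obtain ⟨l₁, l₂, l₃, l₄, hl⟩ := mem_Fn_iff.1 hw
  -- the letters of `w`
  let A : Option ((C ⊕ D) × Bool) → Set D := fun l => {d | ∃ b, l = some (Sum.inr d, b)}
  have hA : ∀ l, (A l).Finite := by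
    intro l
    refine Set.Subsingleton.finite ?_
    rintro d ⟨b, hb⟩ d' ⟨b', hb'⟩
    rw [hb] at hb'
    simp only [Option.some.injEq, Prod.mk.injEq, Sum.inr.injEq] at hb'
    exact hb'.1
  let D₀ : Set D := A l₁ ∪ A l₂ ∪ A l₃ ∪ A l₄
  have hD₀ : D₀.Finite := (((hA _).union (hA _)).union (hA _)).union (hA _)
  have hins : ∀ l, A l ⊆ D₀ → Inside D₀ l := by
    intro l h
    match l, h with
    | none, _ => exact trivial
    | some (Sum.inl a, b), _ => exact trivial
    | some (Sum.inr d, b), h => exact h ⟨b, rfl⟩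
  have hwK : w ∈ KK i D₀ := ⟨l₁, l₂, l₃, l₄,
    hins _ fun d hd => Or.inl (Or.inl (Or.inl hd)), hins _ fun d hd => Or.inl (Or.inl (Or.inr hd)),
    hins _ fun d hd => Or.inl (Or.inr hd), hins _ fun d hd => Or.inr hd, hl⟩
  have hwS : w ∈ SF i D₀ := KK_subset_SF hwK
  refine ⟨KK i D₀, KK_compact hi hC hD₀, KK_subset_Fn, hwK, ?_⟩
  -- the image of the elements `E`
  have hrE : ∀ d b c p, r (E i d b c p) = 1 := by
    intro d b c p
    cases b <;> cases c <;> simp [E, v, hr1, hr2]
  -- reduction to the elements `E`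
  have hred : ∀ x ∈ Fn i 4, r x = r w → x ∈ KK i D₀ ∨ r w = 1 ∧ ∃ d ∉ D₀, ∃ b c p, x = E i d b c p := by
    intro x hx hxw
    obtain ⟨m₁, m₂, m₃, m₄, rfl⟩ := mem_Fn_iff.1 hx
    rcases comb hr1 hr2 hwS m₁ m₂ m₃ m₄ hxw with h | ⟨d, hd, b, a, a', c, h⟩
    · exact Or.inl h
    · right
      have h' : v i m₁ * v i m₂ * v i m₃ * v i m₄ = E i d b c (a, a') := h
      exact ⟨by rw [← hxw, h', hrE], d, hd, b, c, (a, a'), h'⟩
  rw [mem_nhdsWithin]
  by_cases ht : ∃ t, t ∉ D₀
  · obtain ⟨t, ht⟩ := ht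
    -- the homomorphism which sends the outside letters to `t`
    obtain ⟨θ, hθ, hθ2⟩ := hF.extend F (Sum.elim (fun a => i (Sum.inl a))
      (fun d => if d ∈ D₀ then i (Sum.inr d) else i (Sum.inr t)))
      (continuous_sum_dom.2 ⟨hi.comp continuous_inl, continuous_of_discreteTopology⟩)
    have hθw : θ w = w := by
      refine eqOn_SF (i := i) θ (MonoidHom.id F) (fun a => ?_) (fun d hd => ?_) hwS
      · exact hθ2 _
      · rw [hθ2]
        simp [hd]
    have hθE : ∀ d ∉ D₀, ∀ b c p, θ (E i d b c p) = E i t b c p := by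
      intro d hd b c p
      have e1 : θ (i (Sum.inr d)) = i (Sum.inr t) := by
        rw [hθ2]
        simp [hd]
      have e2 : ∀ a, θ (i (Sum.inl a)) = i (Sum.inl a) := fun a => hθ2 _
      cases b <;> cases c <;> simp [E, v, e1, e2]
    -- the compact set of the elements `E t`
    let T : Set F := ⋃ b : Bool, ⋃ c : Bool, range (E i t b c)
    have : CompactSpace C := isCompact_iff_compactSpace.1 hC
    have hT : IsCompact T := isCompact_iUnion fun b => isCompact_iUnion fun c =>
      isCompact_range (continuous_E hi t b c)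
    have hwT : w ∉ T := by
      intro h
      obtain ⟨b, h⟩ := mem_iUnion.1 h
      obtain ⟨c, ⟨a, a'⟩, h⟩ := mem_iUnion.1 h
      -- the homomorphism which kills `t`
      obtain ⟨κ, hκ, hκ2⟩ := hF.extend F (Sum.elim (fun a => i (Sum.inl a))
        (fun d => if d = t then 1 else i (Sum.inr d)))
        (continuous_sum_dom.2 ⟨hi.comp continuous_inl, continuous_of_discreteTopology⟩)
      have hκw : κ w = w := by
        refine eqOn_SF (i := i) κ (MonoidHom.id F) (fun a => ?_) (fun d hd => ?_) hwS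
        · exact hκ2 _
        · rw [hκ2]
          have : d ≠ t := fun e => ht (e ▸ hd)
          simp [this]
      have hκE : κ (E i t b c (a, a')) = v i (some (Sum.inl a, c)) * v i (some (Sum.inl a', !c)) := by
        have e1 : κ (i (Sum.inr t)) = 1 := by
          rw [hκ2]
          simp
        have e2 : ∀ a, κ (i (Sum.inl a)) = i (Sum.inl a) := fun a => hκ2 _
        cases b <;> cases c <;> simp [E, v, e1, e2]
      rw [h, hκw] at hκE
      -- the representation with `t ↦ diag(2, 1)`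
      have hne : ∀ d : D, (if d = t then (2 : ℝ) else 1) ≠ 0 := by
        intro d
        split_ifs <;> norm_num
      obtain ⟨ρ, hρ, hρ1, hρ2⟩ := exists_rho hF (fun d => if d = t then 2 else 1) hne
      obtain ⟨s, hs, hs1, hs2⟩ := rho_E hρ1 hρ2 t b c a a'
      rw [h, hκE, hs1] at hs2
      have h3 := congrArg (fun g : G2 => (g : Matrix (Fin 2) (Fin 2) ℝ) 0 1) hs2
      simp only [U_apply, if_true] at h3
      have h4 : s = 0 := by
        cases b
        · simp at h3
          linarith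
        · simp at h3
          linarith
      rw [h4, abs_zero] at hs
      have h5 : a = a' := Subtype.ext (sub_eq_zero.1 (abs_eq_zero.1 hs.symm))
      subst h5
      exact hw1 (h.symm.trans (E_diag t b c a))
    refine ⟨{x | r x = r w} ∩ θ ⁻¹' Tᶜ, (hrc w).inter (hT.isClosed.isOpen_compl.preimage hθ),
      ⟨rfl, ?_⟩, ?_⟩
    · show θ w ∈ Tᶜ
      rw [hθw]
      exact hwT
    · rintro x ⟨⟨hx1, hx2⟩, hx3⟩
      rcases hred x hx3 hx1 with h | ⟨-, d, hd, b, c, p, rfl⟩
      · exact h
      · exfalso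
        apply hx2
        show θ _ ∈ T
        rw [hθE d hd]
        exact mem_iUnion.2 ⟨b, mem_iUnion.2 ⟨c, mem_range_self p⟩⟩
  · refine ⟨{x | r x = r w}, hrc w, rfl, ?_⟩
    rintro x ⟨hx1, hx3⟩
    rcases hred x hx3 hx1 with h | ⟨-, d, hd, -⟩
    · exact h
    · exact absurd ⟨d, hd⟩ ht

/-- Continuity at the identity. -/
theorem at_one [IsTopologicalGroup F] (hF : IsFreeTopologicalGroup (C ⊕ D) F i)
    (hC : IsCompact C)
    {r : F →* FreeGroup (Option D)} (hrc : ∀ w : F, IsOpen {x : F | r x = r w})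
    (hr1 : ∀ a, r (i (Sum.inl a)) = FreeGroup.of none)
    (hr2 : ∀ d, r (i (Sum.inr d)) = FreeGroup.of (some d)) (f : F → ℝ)
    (hf : ∀ K : Set F, IsCompact K → K ⊆ Fn i 4 → ContinuousOn f K) :
    ContinuousWithinAt f (Fn i 4) 1 := by
  classical
  have := hF.t2
  have hi : Continuous i := hF.isEmbedding.continuous
  have : CompactSpace C := isCompact_iff_compactSpace.1 hC
  rw [Metric.continuousWithinAt_iff']
  intro ε hε
  -- the numbers `δ`
  have hδ : ∀ (d : D) (b c : Bool), ∃ δ : ℝ, 0 < δ ∧ ∀ a a' : C, |(a : ℝ) - a'| < δ →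
      dist (f (E i d b c (a, a'))) (f 1) < ε := by
    intro d b c
    have hcE := continuous_E hi d b c
    have hg : Continuous fun p : C × C => f (E i d b c p) := by
      have h1 := hf (range (E i d b c)) (isCompact_range hcE) (by
        rintro _ ⟨p, rfl⟩
        exact E_mem_Fn d b c p)
      exact h1.comp_continuous hcE (fun p => mem_range_self p)
    let Z : Set (C × C) := {p | ε ≤ dist (f (E i d b c p)) (f 1)}
    have hZ : IsCompact Z := (isClosed_le continuous_const (hg.dist continuous_const)).isCompact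
    by_cases hne : Z.Nonempty
    · have hab : Continuous fun p : C × C => |(p.1 : ℝ) - p.2| := by fun_prop
      obtain ⟨p, hp, hmin⟩ := hZ.exists_isMinOn hne hab.continuousOn
      refine ⟨|(p.1 : ℝ) - p.2|, ?_, fun a a' h => ?_⟩
      · rw [abs_pos, sub_ne_zero]
        intro h
        have h5 : p.1 = p.2 := Subtype.ext h
        have h6 : p = (p.1, p.1) := by
          rw [Prod.ext_iff]
          exact ⟨rfl, h5.symm⟩
        have h7 : ε ≤ dist (f (E i d b c p)) (f 1) := hp
        rw [h6, E_diag, dist_self] at h7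
        linarith
      · by_contra hcon
        have h7 : (a, a') ∈ Z := not_lt.1 hcon
        have h8 := hmin h7
        exact absurd h (not_lt.2 h8)
    · refine ⟨1, one_pos, fun a a' _ => ?_⟩
      by_contra hcon
      exact hne ⟨(a, a'), not_lt.1 hcon⟩
  choose δ' hδ' hδ2' using hδ
  let δ : D → ℝ := fun d => min (min (δ' d true true) (δ' d true false))
    (min (δ' d false true) (δ' d false false))
  have hδpos : ∀ d, 0 < δ d := fun d =>
    lt_min (lt_min (hδ' _ _ _) (hδ' _ _ _)) (lt_min (hδ' _ _ _) (hδ' _ _ _))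
  have hδ2 : ∀ (d : D) (b c : Bool) (a a' : C), |(a : ℝ) - a'| < δ d →
      dist (f (E i d b c (a, a'))) (f 1) < ε := by
    intro d b c a a' h
    refine hδ2' d b c a a' (lt_of_lt_of_le h ?_)
    cases b <;> cases c
    · exact le_trans (min_le_right _ _) (min_le_right _ _)
    · exact le_trans (min_le_right _ _) (min_le_left _ _)
    · exact le_trans (min_le_left _ _) (min_le_right _ _)
    · exact le_trans (min_le_left _ _) (min_le_left _ _)
  -- the two representations
  obtain ⟨ρ, hρ, hρ1, hρ2⟩ := exists_rho hF (fun d => (δ d)⁻¹) (fun d => inv_ne_zero (hδpos d).ne')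
  obtain ⟨ρ', hρ', hρ1', hρ2'⟩ := exists_rho hF (fun d => δ d) (fun d => (hδpos d).ne')
  have hopen : ∀ φ : F →* G2, Continuous φ →
      IsOpen {x : F | |(φ x : Matrix (Fin 2) (Fin 2) ℝ) 0 1| < 1} := by
    intro φ hφ
    have h1 : Continuous fun x : F => (φ x : Matrix (Fin 2) (Fin 2) ℝ) 0 1 :=
      (Units.continuous_val.comp hφ).matrix_elem 0 1
    exact isOpen_lt h1.abs continuous_const
  have hone : ∀ φ : F →* G2, (1 : F) ∈ {x : F | |(φ x : Matrix (Fin 2) (Fin 2) ℝ) 0 1| < 1} := by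
    intro φ
    simp
  -- the bad set
  let B : Set F := KK i (∅ : Set D) ∩ (fun x => dist (f x) (f 1)) ⁻¹' Ici ε
  have hB : IsClosed B := by
    have hK := KK_compact hi hC (finite_empty : (∅ : Set D).Finite)
    have hc : ContinuousOn (fun x => dist (f x) (f 1)) (KK i (∅ : Set D)) :=
      fun x hx => Tendsto.dist (hf _ hK KK_subset_Fn x hx) tendsto_const_nhds
    exact hc.preimage_isClosed_of_isClosed hK.isClosed isClosed_Ici
  have h1B : (1 : F) ∉ B := by
    rintro ⟨-, h⟩
    have h' : ε ≤ dist (f 1) (f 1) := h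
    rw [dist_self] at h'
    linarith
  rw [eventually_iff, mem_nhdsWithin]
  refine ⟨{x | r x = r 1} ∩ {x : F | |(ρ x : Matrix (Fin 2) (Fin 2) ℝ) 0 1| < 1} ∩
    {x : F | |(ρ' x : Matrix (Fin 2) (Fin 2) ℝ) 0 1| < 1} ∩ Bᶜ,
    (((hrc 1).inter (hopen ρ hρ)).inter (hopen ρ' hρ')).inter hB.isOpen_compl,
    ⟨⟨⟨rfl, hone ρ⟩, hone ρ'⟩, h1B⟩, ?_⟩
  rintro x ⟨⟨⟨⟨hx1, hx2⟩, hx3⟩, hx4⟩, hx5⟩
  show dist (f x) (f 1) < ε
  obtain ⟨m₁, m₂, m₃, m₄, rfl⟩ := mem_Fn_iff.1 hx5
  rcases comb hr1 hr2 (one_mem (SF i (∅ : Set D))) m₁ m₂ m₃ m₄ hx1 with h | ⟨d, hd, b, a, a', c, h⟩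
  · by_contra hcon
    exact hx4 ⟨h, not_lt.1 hcon⟩
  · have h' : v i m₁ * v i m₂ * v i m₃ * v i m₄ = E i d b c (a, a') := h
    rw [h'] at hx2 hx3 ⊢
    refine hδ2 d b c a a' ?_
    have hpos := hδpos d
    cases b
    · obtain ⟨s, hs, -, hs2⟩ := rho_E hρ1' hρ2' d false c a a'
      have h3 : |(ρ' (E i d false c (a, a')) : Matrix (Fin 2) (Fin 2) ℝ) 0 1| < 1 := hx3
      rw [hs2, U_apply] at h3
      simp only [Bool.false_eq_true, if_false, abs_mul, abs_inv, abs_of_pos hpos] at h3
      rw [← hs]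
      rwa [inv_mul_lt_iff₀ hpos, mul_one] at h3
    · obtain ⟨s, hs, -, hs2⟩ := rho_E hρ1 hρ2 d true c a a'
      have h3 : |(ρ (E i d true c (a, a')) : Matrix (Fin 2) (Fin 2) ℝ) 0 1| < 1 := hx2
      rw [hs2, U_apply] at h3
      simp only [if_true, abs_mul, abs_inv, abs_of_pos hpos] at h3
      rw [← hs]
      rwa [inv_mul_lt_iff₀ hpos, mul_one] at h3

end Main

/-- For every compact set `C` of real numbers (for instance `C = {0} ∪ {1/m : m ≥ 1}`) and every
discrete space `D`, the subspace `F_4(C ⊕ D)` of the free topological group `F(C ⊕ D)` is a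
`k_R`-space. -/
theorem result (C : Set ℝ) (hC : IsCompact C) (D : Type u) [TopologicalSpace D]
    [DiscreteTopology D] (F : Type u) [Group F] [TopologicalSpace F] (i : C ⊕ D → F)
    (hF : IsFreeTopologicalGroup (C ⊕ D) F i) : KRSpace (Fn i 4) := by
  classical
  have := hF.isTopologicalGroup
  have := hF.t2
  have hi : Continuous i := hF.isEmbedding.continuous
  refine ⟨?_, ?_⟩
  · let _ : UniformSpace F := IsTopologicalGroup.rightUniformSpace F
    have : T35Space F := { (inferInstance : T0Space F), (inferInstance : CompletelyRegularSpace F) with }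
    infer_instance
  -- the homomorphism onto the discrete group
  obtain ⟨r, hrc, hr1, hr2⟩ : ∃ r : F →* FreeGroup (Option D),
      (∀ w : F, IsOpen {x : F | r x = r w}) ∧ (∀ a, r (i (Sum.inl a)) = FreeGroup.of none) ∧
      (∀ d, r (i (Sum.inr d)) = FreeGroup.of (some d)) := by
    let _ : TopologicalSpace (FreeGroup (Option D)) := ⊥
    have : DiscreteTopology (FreeGroup (Option D)) := ⟨rfl⟩
    obtain ⟨r, hr, hr'⟩ := hF.extend (FreeGroup (Option D))
      (Sum.elim (fun _ => FreeGroup.of none) (fun d => FreeGroup.of (some d)))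
      (continuous_sum_dom.2 ⟨continuous_const, continuous_of_discreteTopology⟩)
    exact ⟨r, fun w => (isOpen_discrete {r w}).preimage hr, fun a => hr' _, fun d => hr' _⟩
  intro f hf
  let f' : F → ℝ := fun x => if h : x ∈ Fn i 4 then f ⟨x, h⟩ else 0
  have hff' : ∀ x : Fn i 4, f' x = f x := fun x => by simp [f', x.2]
  have hf' : ∀ K : Set F, IsCompact K → K ⊆ Fn i 4 → ContinuousOn f' K := by
    intro K hK hKF x hx
    have himg : (Subtype.val : Fn i 4 → F) '' (Subtype.val ⁻¹' K) = K := by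
      rw [Subtype.image_preimage_coe, inter_eq_right.2 hKF]
    have hK' : IsCompact ((Subtype.val : Fn i 4 → F) ⁻¹' K) := by
      rw [Subtype.isCompact_iff, himg]
      exact hK
    have h1 := hf _ hK' ⟨x, hKF hx⟩ hx
    have h2 := (IsInducing.subtypeVal (t := Fn i 4)).map_nhdsWithin_eq
      (Subtype.val ⁻¹' K) ⟨x, hKF hx⟩
    rw [himg] at h2
    show Tendsto f' (𝓝[K] x) (𝓝 (f' x))
    rw [← h2, tendsto_map'_iff]
    have h3 : f' ∘ (Subtype.val : Fn i 4 → F) = f := funext hff'
    rw [h3]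
    have h4 : f' x = f ⟨x, hKF hx⟩ := hff' ⟨x, hKF hx⟩
    rw [h4]
    exact h1
  have hcont : ContinuousOn f' (Fn i 4) := by
    intro w hw
    by_cases hw1 : w = 1
    · subst hw1
      exact at_one hF hC hrc hr1 hr2 f' hf'
    · obtain ⟨K, hK, hKF, hwK, hKn⟩ := local_compact hF hC hrc hr1 hr2 hw hw1
      exact (hf' K hK hKF w hwK).mono_of_mem_nhdsWithin hKn
  have h5 := continuousOn_iff_continuous_domRestrict.1 hcont
  have h6 : (Fn i 4).domRestrict f' = f := funext hff'
  rwa [h6] at h5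

end Pool.Agent.Results.MP_c880a5_gt.FFour
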